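import Pool.Agent.helper48.AN.SpecF

namespace AN

open scoped Classical
open Pool.Agent.helper53.AU

noncomputable section

variable {k F : Type} [Field k] [Field F] [Algebra k F]

theorem FA_ge_aeval0 (P : Place k F) (q : Polynomial k) : P.Ge 0 (Polynomial.aeval P.unif q) := by
  rw [Polynomial.aeval_eq_sum_range]
  refine Place.Ge.sum _ _ fun i _ => ?_
  refine Place.Ge.smul _ ?_
  have h : P.Ge 1 P.unif := Or.inr (by rw [P.unif_spec.2])
  exact (h.pow i).mono (by positivity)

theorem FA_ge_aeval (P : Place k F) (n : ℕ) (q : Polynomial k) (h : ∀ i < n, q.coeff i = 0) :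
    P.Ge n (Polynomial.aeval P.unif q) := by
  obtain ⟨r, rfl⟩ := (Polynomial.X_pow_dvd_iff).mpr h
  have h1 : P.Ge 1 P.unif := Or.inr (by rw [P.unif_spec.2])
  have h2 := (h1.pow n).mul (FA_ge_aeval0 P r)
  simpa using h2

/-- `φ` is the expansion of `f` -/
def FA_Rel (P : Place k F) (f : F) (φ : PowerSeries k) : Prop :=
  ∀ n : ℕ, P.Ge n (f - Polynomial.aeval P.unif (PowerSeries.trunc n φ))

theorem FA_step (hQ : QV1_stmt) [IsAlgClosed k] (hF : IsFF k F) (P : Place k F) (n : ℕ) (g : F)
    (hg : P.Ge n g) : ∃ c : k, P.Ge ((n + 1 : ℕ) : ℤ) (g - algebraMap k F c * P.unif ^ n) := by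
  have ht := P.unif_spec
  have h0 : P.Ge 0 (g * (P.unif ^ n)⁻¹) := by
    have h1 : P.Ge (-(n : ℤ)) (P.unif ^ n)⁻¹ := by
      right
      rw [P.ord_inv (pow_ne_zero n ht.1), P.ord_pow ht.1, ht.2, mul_one]
    simpa using hg.mul h1
  obtain ⟨c, hc⟩ := hQ k F hF P _ h0
  refine ⟨c, ?_⟩
  have h2 : P.Ge n (P.unif ^ n) := by
    right
    rw [P.ord_pow ht.1, ht.2, mul_one]
  have h3 := hc.mul h2
  have e : (g * (P.unif ^ n)⁻¹ - algebraMap k F c) * P.unif ^ n =
      g - algebraMap k F c * P.unif ^ n := by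
    rw [sub_mul, mul_assoc, inv_mul_cancel₀ (pow_ne_zero n ht.1), mul_one]
  rw [e] at h3
  have e2 : ((n + 1 : ℕ) : ℤ) = 1 + n := by push_cast; ring
  rw [e2]
  exact h3

theorem FA_exists (hQ : QV1_stmt) [IsAlgClosed k] (hF : IsFF k F) (P : Place k F) (f : F)
    (hf : P.Ge 0 f) : ∃ φ : PowerSeries k, FA_Rel P f φ := by
  have hs : ∀ (n : ℕ) (g : F), ∃ c : k, P.Ge n g →
      P.Ge ((n + 1 : ℕ) : ℤ) (g - algebraMap k F c * P.unif ^ n) := by
    intro n g
    by_cases h : P.Ge n g
    · obtain ⟨c, hc⟩ := FA_step hQ hF P n g h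
      exact ⟨c, fun _ => hc⟩
    · exact ⟨0, fun h' => absurd h' h⟩
  choose c hc using hs
  let r : ℕ → F := fun n => Nat.rec f (fun n g => g - algebraMap k F (c n g) * P.unif ^ n) n
  have r0 : r 0 = f := rfl
  have rs : ∀ n, r (n + 1) = r n - algebraMap k F (c n (r n)) * P.unif ^ n := fun n => rfl
  let φ : PowerSeries k := PowerSeries.mk fun n => c n (r n)
  refine ⟨φ, ?_⟩
  have key : ∀ n : ℕ, r n = f - Polynomial.aeval P.unif (PowerSeries.trunc n φ) ∧ P.Ge n (r n) := by
    intro n
    induction n with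
    | zero =>
      refine ⟨?_, ?_⟩
      · rw [r0]
        have : PowerSeries.trunc 0 φ = 0 := by
          ext i
          simp [PowerSeries.coeff_trunc]
        rw [this, map_zero, sub_zero]
      · rw [r0]; exact_mod_cast hf
    | succ n ih =>
      refine ⟨?_, ?_⟩
      · rw [rs, ih.1, PowerSeries.trunc_succ, map_add, Polynomial.aeval_monomial]
        have e : PowerSeries.coeff n φ = c n (r n) := PowerSeries.coeff_mk _ _
        rw [e, ih.1]
        ring
      · rw [rs]
        exact hc n (r n) ih.2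
  intro n
  rw [← (key n).1]
  exact (key n).2

theorem FA_zero (P : Place k F) (φ : PowerSeries k) (h : FA_Rel P 0 φ) : φ = 0 := by
  by_contra hφ
  have hex : ∃ n, PowerSeries.coeff n φ ≠ 0 := by
    by_contra hc
    push Not at hc
    apply hφ
    ext n
    simp [hc n]
  let i := Nat.find hex
  have hi : PowerSeries.coeff i φ ≠ 0 := Nat.find_spec hex
  have hlt : ∀ j < i, PowerSeries.coeff j φ = 0 := by
    intro j hj
    by_contra hc
    exact Nat.find_min hex hj hc
  have e : PowerSeries.trunc (i + 1) φ = Polynomial.monomial i (PowerSeries.coeff i φ) := by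
    ext j
    rw [PowerSeries.coeff_trunc, Polynomial.coeff_monomial]
    by_cases h1 : j < i + 1
    · rw [if_pos h1]
      by_cases h2 : i = j
      · rw [if_pos h2, h2]
      · rw [if_neg h2, hlt j (by omega)]
    · rw [if_neg h1, if_neg (by omega)]
  have h1 := h (i + 1)
  rw [e, Polynomial.aeval_monomial, zero_sub] at h1
  have h2 := h1.neg
  rw [neg_neg] at h2
  have ht := P.unif_spec
  have hc0 : algebraMap k F (PowerSeries.coeff i φ) ≠ 0 := by simpa using hi
  have h3 := h2.le (mul_ne_zero hc0 (pow_ne_zero _ ht.1))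
  rw [P.ord_mul _ _ hc0 (pow_ne_zero _ ht.1), P.ord_const _ hi, P.ord_pow ht.1, ht.2] at h3
  push_cast at h3
  omega

theorem FA_sub (P : Place k F) {f g : F} {φ ψ : PowerSeries k} (h : FA_Rel P f φ)
    (h' : FA_Rel P g ψ) : FA_Rel P (f - g) (φ - ψ) := by
  intro n
  have e : f - g - Polynomial.aeval P.unif (PowerSeries.trunc n (φ - ψ)) =
      (f - Polynomial.aeval P.unif (PowerSeries.trunc n φ)) -
        (g - Polynomial.aeval P.unif (PowerSeries.trunc n ψ)) := by
    rw [map_sub, map_sub]; ring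
  rw [e]
  exact (h n).sub (h' n)

theorem FA_add (P : Place k F) {f g : F} {φ ψ : PowerSeries k} (h : FA_Rel P f φ)
    (h' : FA_Rel P g ψ) : FA_Rel P (f + g) (φ + ψ) := by
  intro n
  have e : f + g - Polynomial.aeval P.unif (PowerSeries.trunc n (φ + ψ)) =
      (f - Polynomial.aeval P.unif (PowerSeries.trunc n φ)) +
        (g - Polynomial.aeval P.unif (PowerSeries.trunc n ψ)) := by
    rw [map_add, map_add]; ring
  rw [e]
  exact (h n).add (h' n)

theorem FA_unique (P : Place k F) {f : F} {φ ψ : PowerSeries k} (h : FA_Rel P f φ)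
    (h' : FA_Rel P f ψ) : φ = ψ := by
  have h1 := FA_sub P h h'
  rw [sub_self] at h1
  exact sub_eq_zero.mp (FA_zero P _ h1)

theorem FA_mul (P : Place k F) {f g : F} {φ ψ : PowerSeries k} (hf : P.Ge 0 f)
    (h : FA_Rel P f φ) (h' : FA_Rel P g ψ) : FA_Rel P (f * g) (φ * ψ) := by
  intro n
  set a := PowerSeries.trunc n φ with ha
  set b := PowerSeries.trunc n ψ with hb
  have h1 : P.Ge n (f * (g - Polynomial.aeval P.unif b)) := by
    simpa using hf.mul (h' n)
  have h2 : P.Ge n ((f - Polynomial.aeval P.unif a) * Polynomial.aeval P.unif b) := by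
    simpa using (h n).mul (FA_ge_aeval0 P b)
  have h3 : P.Ge n (Polynomial.aeval P.unif (a * b - PowerSeries.trunc n (φ * ψ))) := by
    apply FA_ge_aeval
    intro i hi
    rw [Polynomial.coeff_sub, sub_eq_zero, PowerSeries.coeff_trunc, if_pos hi]
    have e := congrArg (fun q : Polynomial k => q.coeff i)
      (PowerSeries.trunc_trunc_mul_trunc (n := n) (f := φ) (g := ψ))
    simp only [PowerSeries.coeff_trunc, if_pos hi] at e
    rw [← e, ha, hb]
    rw [← Polynomial.coe_mul, Polynomial.coeff_coe]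
  have e : f * g - Polynomial.aeval P.unif (PowerSeries.trunc n (φ * ψ)) =
      f * (g - Polynomial.aeval P.unif b) +
      (f - Polynomial.aeval P.unif a) * Polynomial.aeval P.unif b +
      Polynomial.aeval P.unif (a * b - PowerSeries.trunc n (φ * ψ)) := by
    have e1 : Polynomial.aeval P.unif (a * b - PowerSeries.trunc n (φ * ψ)) =
        Polynomial.aeval P.unif a * Polynomial.aeval P.unif b -
          Polynomial.aeval P.unif (PowerSeries.trunc n (φ * ψ)) := by
      rw [map_sub, Polynomial.aeval_mul]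
    rw [e1]; ring
  rw [e]
  exact (h1.add h2).add h3

theorem FA_const (P : Place k F) (c : k) : FA_Rel P (algebraMap k F c) (PowerSeries.C c) := by
  intro n
  rcases Nat.eq_zero_or_pos n with rfl | hn
  · have e : PowerSeries.trunc 0 (PowerSeries.C c) = 0 := by
      ext i
      simp [PowerSeries.coeff_trunc]
    rw [e, map_zero, sub_zero]
    exact_mod_cast P.ge_const c
  · obtain ⟨m, rfl⟩ : ∃ m, n = m + 1 := ⟨n - 1, by omega⟩
    have e : PowerSeries.trunc (m + 1) (PowerSeries.C c) = Polynomial.C c := by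
      ext i
      rw [PowerSeries.coeff_trunc, Polynomial.coeff_C, PowerSeries.coeff_C]
      split_ifs <;> first | rfl | omega
    rw [e, Polynomial.aeval_C, sub_self]
    exact P.ge_zero _

theorem FA_X (P : Place k F) : FA_Rel P P.unif PowerSeries.X := by
  intro n
  by_cases hn : 2 ≤ n
  · have e : PowerSeries.trunc n (PowerSeries.X : PowerSeries k) = Polynomial.X := by
      ext i
      rw [PowerSeries.coeff_trunc, Polynomial.coeff_X, PowerSeries.coeff_X]
      split_ifs <;> first | rfl | omega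
    rw [e, Polynomial.aeval_X, sub_self]
    exact P.ge_zero _
  · have e : PowerSeries.trunc n (PowerSeries.X : PowerSeries k) = 0 := by
      ext i
      rw [PowerSeries.coeff_trunc, PowerSeries.coeff_X, Polynomial.coeff_zero]
      split_ifs <;> first | rfl | omega
    rw [e, map_zero, sub_zero]
    right
    rw [P.unif_spec.2]
    omega

/-- the valuation ring -/
def FA_O (P : Place k F) : ValuationSubring F where
  carrier := {f | P.Ge 0 f}
  mul_mem' := fun {a b} ha hb => by simpa using Place.Ge.mul (show P.Ge 0 a from ha) hb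
  one_mem' := Or.inr (by rw [P.ord_one])
  add_mem' := fun {a b} ha hb => Place.Ge.add (show P.Ge 0 a from ha) hb
  zero_mem' := P.ge_zero 0
  neg_mem' := fun {a} ha => Place.Ge.neg (show P.Ge 0 a from ha)
  mem_or_inv_mem' := fun x => by
    by_cases hx : x = 0
    · left; left; exact hx
    · rcases le_total 0 (P.ord x) with h | h
      · left; right; exact h
      · right; right; rw [P.ord_inv hx]; omega

theorem FA_ring (hQ : QV1_stmt) [IsAlgClosed k] (hF : IsFF k F) (P : Place k F) :
    ∃ j : FA_O P →+* PowerSeries k, ∀ f : FA_O P, FA_Rel P (f : F) (j f) := by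
  have h := fun f : FA_O P => FA_exists hQ hF P (f : F) f.2
  choose j hj using h
  refine ⟨⟨⟨⟨j, ?_⟩, ?_⟩, ?_, ?_⟩, hj⟩
  · refine FA_unique P (hj 1) ?_
    have := FA_const P (1 : k)
    rw [map_one, map_one] at this
    exact this
  · intro a b
    exact FA_unique P (hj (a * b)) (FA_mul P a.2 (hj a) (hj b))
  · show j 0 = 0
    exact FA_zero P _ (hj 0)
  · intro a b
    exact FA_unique P (hj (a + b)) (FA_add P (hj a) (hj b))

theorem FA_cf (φ : PowerSeries k) (n : ℕ) :
    cf (HahnSeries.ofPowerSeries ℤ k φ : LS k) (n : ℤ) = PowerSeries.coeff n φ := by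
  unfold cf
  rw [HahnSeries.ofPowerSeries_apply_coeff]

theorem FA_PS (φ : PowerSeries k) : (HahnSeries.ofPowerSeries ℤ k φ : LS k) ∈ PS k := by
  intro n hn
  unfold cf
  rw [HahnSeries.ofPowerSeries_apply]
  apply HahnSeries.embDomain_notin_range
  simp only [Set.mem_range, not_exists]
  intro m hm
  have : (m : ℤ) = n := hm
  omega

theorem FA (hQ : QV1_stmt) : FA_stmt := by
  intro k F _ _ _ _ hF P
  obtain ⟨j, hj⟩ := FA_ring hQ hF P
  let g : FA_O P →+* LS k := (HahnSeries.ofPowerSeries ℤ k : PowerSeries k →+* LS k).comp j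
  have hg : Function.Injective g := by
    intro a b hab
    have h1 : j a = j b := HahnSeries.ofPowerSeries_injective hab
    have h2 := FA_sub P (hj a) (hj b)
    rw [h1, sub_self] at h2
    have h3 : (a : F) - b = 0 := by
      by_contra hc
      have h4 := (h2 ((P.ord ((a : F) - b)).toNat + 1))
      have e : PowerSeries.trunc ((P.ord ((a : F) - b)).toNat + 1) (0 : PowerSeries k) = 0 := by
        ext i; simp [PowerSeries.coeff_trunc]
      rw [e, map_zero, sub_zero] at h4
      have h5 := h4.le hc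
      push_cast at h5
      omega
    exact Subtype.ext (sub_eq_zero.mp h3)
  let ι : F →+* LS k := IsFractionRing.lift hg
  have hι : ∀ a : FA_O P, ι (a : F) = g a := fun a => IsFractionRing.lift_algebraMap hg a
  have ht := P.unif_spec
  have hιt : ι P.unif = mono 1 1 := by
    have hm : P.Ge 0 P.unif := Or.inr (by rw [ht.2]; norm_num)
    have h1 := hι ⟨P.unif, hm⟩
    have h2 : j ⟨P.unif, hm⟩ = PowerSeries.X := FA_unique P (hj _) (FA_X P)
    have h3 : g ⟨P.unif, hm⟩ = HahnSeries.ofPowerSeries ℤ k PowerSeries.X := by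
      show HahnSeries.ofPowerSeries ℤ k (j _) = _
      rw [h2]
    rw [h3, HahnSeries.ofPowerSeries_X] at h1
    exact h1
  have hιc : ∀ c : k, ι (algebraMap k F c) = LS.C c := by
    intro c
    have h1 := hι ⟨algebraMap k F c, P.ge_const c⟩
    have h2 : j ⟨algebraMap k F c, P.ge_const c⟩ = PowerSeries.C c :=
      FA_unique P (hj _) (FA_const P c)
    have h3 : g ⟨algebraMap k F c, P.ge_const c⟩ = HahnSeries.ofPowerSeries ℤ k (PowerSeries.C c) := by
      show HahnSeries.ofPowerSeries ℤ k (j _) = _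
      rw [h2]
    rw [h3, HahnSeries.ofPowerSeries_C] at h1
    exact h1
  -- units
  have hunit : ∀ v : F, v ≠ 0 → P.ord v = 0 → ι v ∈ PS k ∧ cf (ι v) 0 ≠ 0 := by
    intro v hv hv0
    have hm : P.Ge 0 v := Or.inr hv0.ge
    have h1 := hι ⟨v, hm⟩
    have h1' : ι v = g ⟨v, hm⟩ := h1
    refine ⟨?_, ?_⟩
    · rw [h1']; exact FA_PS _
    · rw [h1']
      intro h2
      have h3 : PowerSeries.coeff 0 (j ⟨v, hm⟩) = 0 := by
        rw [← FA_cf]
        exact_mod_cast h2
      have h4 := hj ⟨v, hm⟩ 1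
      have e : PowerSeries.trunc 1 (j ⟨v, hm⟩) = 0 := by
        ext i
        rw [PowerSeries.coeff_trunc, Polynomial.coeff_zero]
        by_cases hi : i < 1
        · rw [if_pos hi]
          have : i = 0 := by omega
          rw [this, h3]
        · rw [if_neg hi]
      rw [e, map_zero, sub_zero] at h4
      have h5 := h4.le hv
      push_cast at h5
      omega
  have hmono : ∀ m : ℤ, (mono 1 (1 : k)) ^ m = mono m 1 := by
    have hn : ∀ n : ℕ, (mono 1 (1 : k)) ^ n = mono (n : ℤ) 1 := by
      intro n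
      induction n with
      | zero => rw [pow_zero]; rfl
      | succ n ih => rw [pow_succ, ih, mono_mul_mono]; simp
    intro m
    cases m with
    | ofNat n => rw [Int.ofNat_eq_natCast, zpow_natCast, hn]
    | negSucc n =>
      rw [zpow_negSucc, hn]
      apply inv_eq_of_mul_eq_one_left
      rw [mono_mul_mono, one_mul]
      have : Int.negSucc n + ((n + 1 : ℕ) : ℤ) = 0 := by
        rw [Int.negSucc_eq]; push_cast; ring
      rw [this]
      rfl
  have hdec : ∀ f : F, f ≠ 0 → ∃ v : F, v ≠ 0 ∧ P.ord v = 0 ∧ ι f = mono (P.ord f) 1 * ι v := by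
    intro f hf
    have hz : P.unif ^ (P.ord f) ≠ 0 := zpow_ne_zero _ ht.1
    refine ⟨f / P.unif ^ (P.ord f), div_ne_zero hf hz, ?_, ?_⟩
    · rw [P.ord_div hf hz, P.ord_zpow ht.1, ht.2]; ring
    · rw [← hmono, ← hιt, ← map_zpow₀, ← map_mul, mul_div_cancel₀ _ hz]
  refine ⟨ι, hιc, ?_, ?_⟩
  · intro f hf
    obtain ⟨v, hv, hv0, e⟩ := hdec f hf
    rw [e]
    have := GE_mul (mono_mem_GE (P.ord f) (1 : k)) (hunit v hv hv0).1
    simpa using this
  · intro f hf
    obtain ⟨v, hv, hv0, e⟩ := hdec f hf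
    rw [e, cf_mono_mul, one_mul, sub_self]
    exact (hunit v hv hv0).2

end

end AN
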