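import Pool.Agent.helper48.AN.SpecF

namespace AN

open scoped Classical
open Pool.Agent.helper53.AU

noncomputable section

/-- a map with the product rule which vanishes on constants and at `x` -/
structure FB_Der {k F : Type} [Field k] [Field F] [Algebra k F] (ι : F →+* LS k) (E : F → LS k) : Prop where
  add : ∀ f g, E (f + g) = E f + E g
  mul : ∀ f g, E (f * g) = ι f * E g + ι g * E f
  const : ∀ c : k, E (algebraMap k F c) = 0

variable {k F : Type} [Field k] [Field F] [Algebra k F]

theorem FB_Der.zero {ι : F →+* LS k} {E : F → LS k} (h : FB_Der ι E) : E 0 = 0 := by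
  have := h.const 0
  rwa [map_zero] at this

theorem FB_Der.one {ι : F →+* LS k} {E : F → LS k} (h : FB_Der ι E) : E 1 = 0 := by
  have := h.const 1
  rwa [map_one] at this

theorem FB_Der.neg {ι : F →+* LS k} {E : F → LS k} (h : FB_Der ι E) (f : F) : E (-f) = -E f := by
  have := h.add f (-f)
  rw [add_neg_cancel, h.zero] at this
  exact (neg_eq_of_add_eq_zero_right this.symm).symm

theorem FB_Der.inv {ι : F →+* LS k} {E : F → LS k} (h : FB_Der ι E) (f : F) (hf : E f = 0) :
    E f⁻¹ = 0 := by
  by_cases h0 : f = 0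
  · rw [h0, inv_zero, h.zero]
  have h1 := h.mul f f⁻¹
  rw [mul_inv_cancel₀ h0, h.one, hf, mul_zero, add_zero] at h1
  have h2 : ι f ≠ 0 := (map_ne_zero ι).mpr h0
  exact (mul_eq_zero.mp h1.symm).resolve_left h2

/-- the field of constants -/
def FB_Der.fld {ι : F →+* LS k} {E : F → LS k} (h : FB_Der ι E) : IntermediateField k F where
  carrier := {f | E f = 0}
  mul_mem' := fun {a b} (ha : E a = 0) (hb : E b = 0) => by
    show E (a * b) = 0
    rw [h.mul, ha, hb]; simp
  add_mem' := fun {a b} (ha : E a = 0) (hb : E b = 0) => by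
    show E (a + b) = 0
    rw [h.add, ha, hb]; simp
  algebraMap_mem' := fun c => h.const c
  inv_mem' := fun a (ha : E a = 0) => h.inv a ha

theorem FB_Der.pow {ι : F →+* LS k} {E : F → LS k} (h : FB_Der ι E) (f : F) (n : ℕ) :
    E (f ^ (n + 1)) = ι ((n + 1 : ℕ) * f ^ n) * E f := by
  induction n with
  | zero => simp
  | succ n ih =>
    rw [pow_succ, h.mul, ih]
    simp only [map_mul, map_pow, map_natCast]
    push_cast
    ring

theorem FB_Der.poly {ι : F →+* LS k} {E : F → LS k} (h : FB_Der ι E) (K : IntermediateField k F)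
    (hK : ∀ a : K, E (a : F) = 0) (f : F) (q : Polynomial K) :
    E (Polynomial.aeval f q) = ι (Polynomial.aeval f (Polynomial.derivative q)) * E f := by
  induction q using Polynomial.induction_on' with
  | add p q hp hq => rw [map_add, h.add, hp, hq, map_add, map_add, map_add, add_mul]
  | monomial n a =>
    rw [Polynomial.aeval_monomial, h.mul]
    have ha : E (algebraMap K F a) = 0 := hK a
    rw [ha, mul_zero, add_zero, Polynomial.derivative_monomial, Polynomial.aeval_monomial]
    cases n with
    | zero => simp [h.one]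
    | succ n =>
      rw [h.pow, map_mul (algebraMap K F), map_mul ι, map_mul ι, map_mul ι]
      simp only [map_natCast, Nat.add_sub_cancel]
      ring

theorem FB_Der.eq_zero {ι : F →+* LS k} {E : F → LS k} (h : FB_Der ι E) (x : F) (hx : E x = 0)
    (hs : Sep k x) (f : F) : E f = 0 := by
  obtain ⟨-, hfin, hsep⟩ := hs
  set K := IntermediateField.adjoin k ({x} : Set F) with hKdef
  have hK : ∀ a : K, E (a : F) = 0 := by
    intro a
    have hle : K ≤ h.fld := by
      rw [hKdef, IntermediateField.adjoin_le_iff]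
      intro y hy
      rw [Set.mem_singleton_iff] at hy
      subst hy
      exact hx
    exact hle a.2
  have h1 := h.poly K hK f (minpoly K f)
  rw [minpoly.aeval, h.zero] at h1
  have h2 : Polynomial.aeval f (Polynomial.derivative (minpoly K f)) ≠ 0 :=
    (Algebra.IsSeparable.isSeparable K f).aeval_derivative_ne_zero (minpoly.aeval K f)
  have h3 : ι (Polynomial.aeval f (Polynomial.derivative (minpoly K f))) ≠ 0 :=
    (map_ne_zero ι).mpr h2
  exact (mul_eq_zero.mp h1.symm).resolve_left h3

theorem FB (hK3 : QK3_stmt) (hK5 : QK5_stmt) : FB_stmt := by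
  intro k F _ _ _ _ hF P ι hι D hD
  obtain ⟨x, hx⟩ : ∃ x, D x ≠ 0 := by
    by_contra hc
    push Not at hc
    exact hD (Derivation.ext hc)
  have hs : Sep k x := (hK3 k F hF D hD x).mp hx
  set u : LS k := dd (ι x) / ι (D x) with hu
  have hιx : ι (D x) ≠ 0 := (map_ne_zero ι).mpr hx
  have hE : FB_Der ι (fun f => dd (ι f) - u * ι (D f)) := by
    refine ⟨?_, ?_, ?_⟩
    · intro f g
      simp only [map_add]
      ring
    · intro f g
      simp only [map_mul, dd_mul, Derivation.leibniz, smul_eq_mul, map_add]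
      ring
    · intro c
      simp only [hι.const, dd_C, Derivation.map_algebraMap, map_zero, mul_zero, sub_zero]
  have hEx : dd (ι x) - u * ι (D x) = 0 := by
    rw [hu, div_mul_cancel₀ _ hιx, sub_self]
  have hall : ∀ f, dd (ι f) = u * ι (D f) := fun f => sub_eq_zero.mp (hE.eq_zero x hEx hs f)
  have ht := P.unif_spec
  obtain ⟨hDt, -, -, -⟩ := hK5 k F hF D hD P P.unif ht
  have e : u = dd (ι P.unif) * ι (D P.unif)⁻¹ := by
    have h1 : ι (D P.unif) ≠ 0 := (map_ne_zero ι).mpr hDt
    rw [hall P.unif, map_inv₀, mul_assoc, mul_inv_cancel₀ h1, mul_one]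
  have g1 : dd (ι P.unif) ∈ GE k 0 := by
    have := dd_mem_GE (hι.mem P.unif ht.1)
    rw [ht.2] at this
    exact this
  have g2 : cf (dd (ι P.unif)) 0 ≠ 0 := by
    rw [cf_dd]
    have := hι.ne P.unif ht.1
    rw [ht.2] at this
    simpa using this
  have hi : (D P.unif)⁻¹ ≠ 0 := inv_ne_zero hDt
  have g3 := hι.mem _ hi
  have g4 := hι.ne _ hi
  rw [P.ord_inv hDt] at g3 g4
  refine ⟨u, ?_, ?_, hall⟩
  · rw [e]
    have := GE_mul g1 g3
    rwa [zero_add] at this
  · rw [e]
    have := cf_mul_lead g1 g3
    rw [zero_add] at this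
    rw [this]
    exact mul_ne_zero g2 g4

end

end AN
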